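import Pool.Agent.Y602.EQ.Weights

/-!
# Families of sets cut out by one linear equation: small certificates
-/

set_option autoImplicit false

namespace Pool.Agent.Y602.EQ

open Finset Filter Topology

section

variable {V : Type} [Fintype V] [DecidableEq V]

theorem eventually_pos {a b : ℚ} (ha : 0 < a) : ∀ᶠ ε in 𝓝[>] (0 : ℚ), 0 < a + ε * b := by
  have h : Continuous (fun ε : ℚ => a + ε * b) := by fun_prop
  have h1 : ∀ᶠ ε in 𝓝 (0 : ℚ), 0 < a + ε * b :=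
    (h.tendsto 0).eventually (lt_mem_nhds (by simpa using ha))
  exact h1.filter_mono nhdsWithin_le_nhds

theorem eventually_ne' {a b : ℚ} (ha : a ≠ 0) : ∀ᶠ ε in 𝓝[>] (0 : ℚ), a + ε * b ≠ 0 := by
  have h : Continuous (fun ε : ℚ => a + ε * b) := by fun_prop
  have h1 : ∀ᶠ ε in 𝓝 (0 : ℚ), a + ε * b ≠ 0 :=
    (h.tendsto 0).eventually_ne (by simpa using ha)
  exact h1.filter_mono nhdsWithin_le_nhds

/-- Weights that separate the family from all sets of a list. -/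
theorem separate_all (F : Finset (Finset V)) (w₀ : V → ℚ) (t₀ : ℚ) (ht₀ : 0 < t₀)
    (hw₀ : ∀ v, 0 < w₀ v) (h₀ : ∀ S ∈ F, ∑ v ∈ S, w₀ v = t₀) (𝒯 : Finset (Finset V))
    (h : ∀ T ∈ 𝒯, ∃ (w : V → ℚ) (t : ℚ), (∀ S ∈ F, ∑ v ∈ S, w v = t) ∧ ∑ v ∈ T, w v ≠ t) :
    ∃ (w : V → ℚ) (t : ℚ), 0 < t ∧ (∀ v, 0 < w v) ∧ (∀ S ∈ F, ∑ v ∈ S, w v = t) ∧
      ∀ T ∈ 𝒯, ∑ v ∈ T, w v ≠ t := by
  induction 𝒯 using Finset.induction_on with
  | empty => exact ⟨w₀, t₀, ht₀, hw₀, h₀, by simp⟩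
  | insert T 𝒯 hT ih =>
    obtain ⟨w, t, ht, hw, hF, hN⟩ := ih fun T hT => h T (Finset.mem_insert_of_mem hT)
    by_cases hc : ∑ v ∈ T, w v = t
    · obtain ⟨w', t', hF', hT'⟩ := h T (Finset.mem_insert_self _ _)
      have e1 : ∀ᶠ ε in 𝓝[>] (0 : ℚ), 0 < t + ε * t' := eventually_pos ht
      have e2 : ∀ᶠ ε in 𝓝[>] (0 : ℚ), ∀ v, 0 < w v + ε * w' v :=
        eventually_all.2 fun v => eventually_pos (hw v)
      have e3 : ∀ᶠ ε in 𝓝[>] (0 : ℚ), ∀ T ∈ 𝒯,
          (∑ v ∈ T, w v - t) + ε * (∑ v ∈ T, w' v - t') ≠ 0 :=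
        (Finset.eventually_all 𝒯).2 fun T hT => eventually_ne' (sub_ne_zero.2 (hN T hT))
      have e4 : ∀ᶠ ε in 𝓝[>] (0 : ℚ), 0 < ε := eventually_mem_nhdsWithin
      obtain ⟨ε, h1, h2, h3, h4⟩ := (e1.and (e2.and (e3.and e4))).exists
      refine ⟨fun v => w v + ε * w' v, t + ε * t', h1, h2, ?_, ?_⟩
      · intro S hS
        rw [Finset.sum_add_distrib, ← Finset.mul_sum, hF S hS, hF' S hS]
      · intro S hS
        rw [Finset.sum_add_distrib, ← Finset.mul_sum]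
        intro heq
        rcases Finset.mem_insert.1 hS with rfl | hS
        · rw [hc] at heq
          apply hT'
          have : ε * ∑ v ∈ S, w' v = ε * t' := by linarith
          exact mul_left_cancel₀ h4.ne' this
        · exact h3 S hS (by linarith)
    · refine ⟨w, t, ht, hw, hF, ?_⟩
      intro S hS
      rcases Finset.mem_insert.1 hS with rfl | hS
      · exact hc
      · exact hN S hS

theorem exists_nat_of_dvd {q : ℚ} (hq : 0 ≤ q) {N : ℕ} (h : q.den ∣ N) :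
    ∃ n : ℕ, (n : ℚ) = N * q := by
  obtain ⟨c, rfl⟩ := h
  refine ⟨c * q.num.toNat, ?_⟩
  have h1 : ((q.num.toNat : ℕ) : ℚ) = q.num := by
    have : ((q.num.toNat : ℕ) : ℤ) = q.num := Int.toNat_of_nonneg (Rat.num_nonneg.2 hq)
    exact_mod_cast this
  have h2 : (q.den : ℚ) * q = q.num := by
    rw [mul_comm]
    exact Rat.mul_den_eq_num q
  push_cast
  rw [h1, mul_assoc, mul_left_comm, h2]

/-- Clearing denominators. -/
theorem integral_weights (F : Finset (Finset V)) (w : V → ℚ) (t : ℚ) (ht : 0 < t)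
    (hw : ∀ v, 0 < w v) (hF : ∀ S, S ∈ F ↔ ∑ v ∈ S, w v = t) :
    ∃ (w : V → ℕ) (t : ℕ), 0 < t ∧ (∀ v, 0 < w v) ∧ ∀ S, S ∈ F ↔ ∑ v ∈ S, w v = t := by
  set N : ℕ := (∏ v, (w v).den) * t.den with hN
  have hN0 : 0 < N := by
    refine Nat.mul_pos (Finset.prod_pos fun v _ => (w v).den_pos) t.den_pos
  have hN0' : (0 : ℚ) < N := by exact_mod_cast hN0
  have h1 : ∀ v, ∃ n : ℕ, (n : ℚ) = N * w v := fun v =>
    exists_nat_of_dvd (hw v).le ((Finset.dvd_prod_of_mem _ (Finset.mem_univ v)).mul_right _)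
  obtain ⟨m, hm⟩ : ∃ m : ℕ, (m : ℚ) = N * t := exists_nat_of_dvd ht.le (Dvd.intro_left _ rfl)
  choose n hn using h1
  refine ⟨n, m, ?_, fun v => ?_, fun S => ?_⟩
  · have : (0 : ℚ) < m := by rw [hm]; positivity
    exact_mod_cast this
  · have : (0 : ℚ) < n v := by rw [hn]; exact mul_pos hN0' (hw v)
    exact_mod_cast this
  · rw [hF S]
    have h2 : ((∑ v ∈ S, n v : ℕ) : ℚ) = N * ∑ v ∈ S, w v := by
      push_cast
      rw [Finset.mul_sum]
      exact Finset.sum_congr rfl fun v _ => hn v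
    constructor
    · intro h
      have : ((∑ v ∈ S, n v : ℕ) : ℚ) = m := by rw [h2, h, hm]
      exact_mod_cast this
    · intro h
      have : ((∑ v ∈ S, n v : ℕ) : ℚ) = m := by rw [h]
      rw [h2, hm] at this
      exact mul_left_cancel₀ hN0'.ne' this

theorem bnd_le {c d : ℕ} (h : c ≤ d) : bnd c ≤ bnd d := by
  rcases Nat.eq_zero_or_pos d with h0 | h0
  · have : c = 0 := by omega
    rw [this, h0]
  · refine Nat.mul_le_mul (Nat.factorial_le h) ?_
    exact (Nat.pow_le_pow_left h c).trans (Nat.pow_le_pow_right h0 h)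

/-- A family of sets is cut out by an equation with positive integer weights, or there is a small
certificate against this. -/
theorem family_or (F : Finset (Finset V)) :
    (∃ (w : V → ℕ) (t : ℕ), 0 < t ∧ (∀ v, 0 < w v) ∧ ∀ S, S ∈ F ↔ ∑ v ∈ S, w v = t) ∨
    ∃ p q : Finset V → ℕ, (∀ S, p S ≤ bnd (Fintype.card V + 2) ∧ q S ≤ bnd (Fintype.card V + 2)) ∧
      (F.filter (fun S => p S ≠ 0 ∨ q S ≠ 0)).card ≤ Fintype.card V + 2 ∧
      (Cert1 F p q ∨ Cert2 F p q) := by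
  by_contra hcon
  push Not at hcon
  obtain ⟨hcon1, hcon2⟩ := hcon
  rcases positive_or F with ⟨w₀, t₀, ht₀, hw₀, h₀⟩ | ⟨p, q, h1, h2, h3⟩
  · have hsep : ∀ T ∈ (univ : Finset (Finset V)).filter (fun T => T ∉ F),
        ∃ (w : V → ℚ) (t : ℚ), (∀ S ∈ F, ∑ v ∈ S, w v = t) ∧ ∑ v ∈ T, w v ≠ t := by
      intro T hT
      rcases separate_or F T (Finset.mem_filter.1 hT).2 with h | ⟨p, q, h1, h2, h3⟩
      · exact h
      · exfalso
        refine (hcon2 p q (fun S => ⟨(h1 S).1.trans (bnd_le (by omega)),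
          (h1 S).2.trans (bnd_le (by omega))⟩) (h2.trans (by omega))).1 h3
    obtain ⟨w, t, ht, hw, hF, hT⟩ := separate_all F w₀ t₀ ht₀ hw₀ h₀ _ hsep
    obtain ⟨w', t', ht', hw', h'⟩ := integral_weights F w t ht hw (fun S => ⟨hF S, fun h => by
      by_contra hS
      exact hT S (by simp [hS]) h⟩)
    obtain ⟨S, hS⟩ := hcon1 w' t' ht' hw'
    rcases hS with ⟨h1, h2⟩ | ⟨h1, h2⟩
    · exact h2 ((h' S).1 h1)
    · exact h1 ((h' S).2 h2)
  · exact (hcon2 p q h1 h2).2 h3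

theorem sum_cov (F : Finset (Finset V)) (p : Finset V → ℕ) (w : V → ℕ) :
    ∑ v, cov F p v * w v = ∑ S ∈ F, p S * ∑ v ∈ S, w v := by
  simp only [cov, Finset.sum_mul]
  rw [Finset.sum_comm]
  refine Finset.sum_congr rfl fun S _ => ?_
  simp only [ite_mul, zero_mul]
  rw [Finset.sum_ite_mem, Finset.univ_inter, Finset.mul_sum]

/-- A certificate excludes weights. -/
theorem not_of_cert (F : Finset (Finset V)) (p q : Finset V → ℕ) (h : Cert1 F p q ∨ Cert2 F p q)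
    (w : V → ℕ) (t : ℕ) (ht : 0 < t) (hw : ∀ v, 0 < w v) (hF : ∀ S, S ∈ F ↔ ∑ v ∈ S, w v = t) :
    False := by
  have hp : ∑ v, cov F p v * w v = (∑ S ∈ F, p S) * t := by
    rw [sum_cov, Finset.sum_mul]
    exact Finset.sum_congr rfl fun S hS => by rw [(hF S).1 hS]
  have hq : ∑ v, cov F q v * w v = (∑ S ∈ F, q S) * t := by
    rw [sum_cov, Finset.sum_mul]
    exact Finset.sum_congr rfl fun S hS => by rw [(hF S).1 hS]
  rcases h with ⟨T, D, hT, hD, h1, h2⟩ | ⟨h1, h2, h3⟩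
  · rw [h2, add_mul, ← hq] at hp
    have h4 : ∑ v, cov F p v * w v = ∑ v, cov F q v * w v + D * ∑ v ∈ T, w v := by
      simp only [h1, add_mul, Finset.sum_add_distrib, ite_mul, zero_mul]
      rw [Finset.sum_ite_mem, Finset.univ_inter, Finset.mul_sum]
    rw [h4] at hp
    have h5 : D * ∑ v ∈ T, w v = D * t := Nat.add_left_cancel hp
    exact hT ((hF T).2 (Nat.eq_of_mul_eq_mul_left hD h5))
  · have h4 : ∑ v, cov F q v * w v ≤ ∑ v, cov F p v * w v :=
      Finset.sum_le_sum fun v _ => Nat.mul_le_mul_right _ (h1 v)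
    rcases h3 with ⟨v, hv⟩ | h3
    · have h5 : ∑ v, cov F q v * w v < ∑ v, cov F p v * w v :=
        Finset.sum_lt_sum (fun v _ => Nat.mul_le_mul_right _ (h1 v))
          ⟨v, Finset.mem_univ v, Nat.mul_lt_mul_of_pos_right hv (hw v)⟩
      rw [hp, hq] at h5
      have h6 := Nat.lt_of_mul_lt_mul_right h5
      omega
    · have h6 : (∑ S ∈ F, p S) * t < (∑ S ∈ F, q S) * t := Nat.mul_lt_mul_of_pos_right h3 ht
      rw [← hp, ← hq] at h6
      omega

end

end Pool.Agent.Y602.EQ
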