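import Pool.Agent.Y602.EQ.Family
import Pool.Agent.Y602.CIS
import Pool.Agent.H609R2.EqPoly

/-!
# Recognizing equistable graphs is in coNP
-/

set_option autoImplicit false

namespace Pool.Agent.Y602.EQ

open Pool.Agent.H622R2 Pool.Agent.H609R2 Pool.Agent.NPC Pool.Agent.H495R3 Finset

/-! ### The verifier -/

/-- The list of vertices is a maximal stable set. -/
def chkMax (M : List (List Bool)) (K : List ℕ) : Bool :=
  (K.all fun i => decide (i < M.length)) &&
  (K.all fun i => K.all fun j => !adjB M i j) &&
  ((List.range M.length).all fun x => decide (x ∈ K) || K.any fun i => adjB M i x)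

/-- The number of times that the vertex `x` is covered by the sets with their multiplicities. -/
def cP (L : List (List ℕ × ℕ × ℕ)) (x : ℕ) : ℕ :=
  (L.map fun z => if x ∈ z.1 then z.2.1 else 0).sum

/-- The same for the second multiplicities. -/
def cQ (L : List (List ℕ × ℕ × ℕ)) (x : ℕ) : ℕ :=
  (L.map fun z => if x ∈ z.1 then z.2.2 else 0).sum

/-- The sum of the first multiplicities. -/
def tP (L : List (List ℕ × ℕ × ℕ)) : ℕ := (L.map fun z => z.2.1).sum

/-- The sum of the second multiplicities. -/
def tQ (L : List (List ℕ × ℕ × ℕ)) : ℕ := (L.map fun z => z.2.2).sum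

/-- The vertices for which the two numbers are different. -/
def dif (M : List (List Bool)) (L : List (List ℕ × ℕ × ℕ)) : List ℕ :=
  (List.range M.length).filter fun x => decide (cP L x ≠ cQ L x)

/-- The verifier of certificates that a graph is not equistable. -/
def chkEq (p : List (List Bool) × List (List ℕ × ℕ × ℕ)) : Bool :=
  (p.2.all fun z => chkMax p.1 z.1) &&
  ((((List.range p.1.length).all fun x => decide (cQ p.2 x ≤ cP p.2 x)) &&
      decide (tP p.2 ≤ tQ p.2) &&
      (((List.range p.1.length).any fun x => decide (cQ p.2 x < cP p.2 x)) ||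
        decide (tP p.2 < tQ p.2))) ||
    (decide (tQ p.2 < tP p.2) &&
      ((List.range p.1.length).all fun x => decide (cP p.2 x = cQ p.2 x) ||
        decide (cP p.2 x = cQ p.2 x + (tP p.2 - tQ p.2))) &&
      !(chkMax p.1 (dif p.1 p.2))))

section PolyTime

open Poly

variable {α : Type} [TEnc α]

@[fun_prop]
theorem adjB_poly' {M : α → List (List Bool)} {i j : α → ℕ} (hM : Poly M) (hi : Poly i)
    (hj : Poly j) : Poly (fun a => adjB (M a) (i a) (j a)) := by
  unfold adjB entry
  fun_prop

theorem range_len {M : α → List (List Bool)} (hM : Poly M) :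
    Poly (fun a => List.range (M a).length) := Poly.range_length hM

@[fun_prop]
theorem chkMax_poly {M : α → List (List Bool)} {K : α → List ℕ} (hM : Poly M) (hK : Poly K) :
    Poly (fun a => chkMax (M a) (K a)) := by
  unfold chkMax
  have h1 : Poly (fun a => List.range (M a).length) := Poly.range_length hM
  have h3 : Poly (fun a => (List.range (M a).length).all fun x => decide (x ∈ K a) ||
        (K a).any fun i => adjB (M a) i x) := by
    refine Poly.all (p := fun a x => decide (x ∈ K a) || (K a).any fun i => adjB (M a) i x) h1 ?_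
    fun_prop
  fun_prop

@[fun_prop]
theorem cP_poly {L : α → List (List ℕ × ℕ × ℕ)} {x : α → ℕ} (hL : Poly L) (hx : Poly x) :
    Poly (fun a => cP (L a) (x a)) := by
  unfold cP
  fun_prop

@[fun_prop]
theorem cQ_poly {L : α → List (List ℕ × ℕ × ℕ)} {x : α → ℕ} (hL : Poly L) (hx : Poly x) :
    Poly (fun a => cQ (L a) (x a)) := by
  unfold cQ
  fun_prop

@[fun_prop]
theorem tP_poly {L : α → List (List ℕ × ℕ × ℕ)} (hL : Poly L) : Poly (fun a => tP (L a)) := by
  unfold tP
  fun_prop

@[fun_prop]
theorem tQ_poly {L : α → List (List ℕ × ℕ × ℕ)} (hL : Poly L) : Poly (fun a => tQ (L a)) := by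
  unfold tQ
  fun_prop

@[fun_prop]
theorem dif_poly {M : α → List (List Bool)} {L : α → List (List ℕ × ℕ × ℕ)} (hM : Poly M)
    (hL : Poly L) : Poly (fun a => dif (M a) (L a)) := by
  unfold dif
  have h1 : Poly (fun a => List.range (M a).length) := Poly.range_length hM
  refine Poly.filter (p := fun a x => decide (cP (L a) x ≠ cQ (L a) x)) h1 ?_
  fun_prop

theorem chkEq_poly : Poly chkEq := by
  unfold chkEq
  have h1 : Poly (fun p : List (List Bool) × List (List ℕ × ℕ × ℕ) => List.range p.1.length) :=
    Poly.range_length (Poly.fst Poly.id)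
  have h2 : Poly (fun p : List (List Bool) × List (List ℕ × ℕ × ℕ) =>
      (List.range p.1.length).all fun x => decide (cQ p.2 x ≤ cP p.2 x)) := by
    refine Poly.all (p := fun (p : List (List Bool) × List (List ℕ × ℕ × ℕ)) x =>
      decide (cQ p.2 x ≤ cP p.2 x)) h1 ?_
    fun_prop
  have h3 : Poly (fun p : List (List Bool) × List (List ℕ × ℕ × ℕ) =>
      (List.range p.1.length).any fun x => decide (cQ p.2 x < cP p.2 x)) := by
    refine Poly.any (p := fun (p : List (List Bool) × List (List ℕ × ℕ × ℕ)) x =>
      decide (cQ p.2 x < cP p.2 x)) h1 ?_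
    fun_prop
  have h4 : Poly (fun p : List (List Bool) × List (List ℕ × ℕ × ℕ) =>
      (List.range p.1.length).all fun x => decide (cP p.2 x = cQ p.2 x) ||
        decide (cP p.2 x = cQ p.2 x + (tP p.2 - tQ p.2))) := by
    refine Poly.all (p := fun (p : List (List Bool) × List (List ℕ × ℕ × ℕ)) x =>
      decide (cP p.2 x = cQ p.2 x) ||
        decide (cP p.2 x = cQ p.2 x + (tP p.2 - tQ p.2))) h1 ?_
    fun_prop
  fun_prop

end PolyTime

/-! ### Correctness -/

theorem chkMax_iff (M : List (List Bool)) (K : List ℕ) :
    chkMax M K = true ↔ (∀ i ∈ K, i < M.length) ∧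
      Maximal (matGraph M).IsIndepSet {x : Fin M.length | (x : ℕ) ∈ K} := by
  simp only [chkMax, Bool.and_eq_true, List.all_eq_true, decide_eq_true_eq, Bool.not_eq_true',
    Bool.or_eq_true, List.any_eq_true, List.mem_range]
  constructor
  · rintro ⟨⟨h1, h2⟩, h3⟩
    refine ⟨h1, ?_, ?_⟩
    · intro a ha b hb _ hadj
      have h4 := h2 _ ha _ hb
      rw [(adjB_iff M a b).2 hadj] at h4
      exact absurd h4 (by simp)
    · intro T' hT' hTT' x hx
      rcases h3 x.1 x.2 with h4 | ⟨i, hi, h4⟩
      · exact h4
      · exfalso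
        have h5 : (⟨i, h1 i hi⟩ : Fin M.length) ∈ T' := hTT' hi
        have h6 := (adjB_iff M ⟨i, h1 i hi⟩ x).1 h4
        exact hT' h5 hx h6.ne h6
  · rintro ⟨h1, h2, h3⟩
    refine ⟨⟨h1, ?_⟩, ?_⟩
    · intro i hi j hj
      rw [← Bool.not_eq_true, adjB_iff M ⟨i, h1 i hi⟩ ⟨j, h1 j hj⟩]
      intro hadj
      exact h2 hi hj hadj.ne hadj
    · intro x hx
      by_cases hxK : x ∈ K
      · exact Or.inl hxK
      · right
        by_contra hcon
        push Not at hcon
        apply hxK
        have h4 : (matGraph M).IsIndepSet (insert ⟨x, hx⟩ {x : Fin M.length | (x : ℕ) ∈ K}) := by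
          intro a ha b hb hab hadj
          rcases ha with rfl | ha
          · rcases hb with rfl | hb
            · exact hab rfl
            · exact hcon b.1 hb ((adjB_iff M b ⟨x, hx⟩).2 hadj.symm)
          · rcases hb with rfl | hb
            · exact hcon a.1 ha ((adjB_iff M a ⟨x, hx⟩).2 hadj)
            · exact h2 ha hb hab hadj
        exact h3 h4 (Set.subset_insert _ _) (Set.mem_insert _ _)

open Classical in
/-- The family of the maximal stable sets. -/
noncomputable def famM (M : List (List Bool)) : Finset (Finset (Fin M.length)) :=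
  univ.filter fun S => Maximal (matGraph M).IsIndepSet (S : Set (Fin M.length))

theorem mem_famM {M : List (List Bool)} {S : Finset (Fin M.length)} :
    S ∈ famM M ↔ Maximal (matGraph M).IsIndepSet (S : Set (Fin M.length)) := by
  classical
  simp [famM]

/-- Equistable weights are positive. -/
theorem weight_pos {V : Type} [Finite V] {G : SimpleGraph V} {w : V → ℕ} {t : ℕ}
    (h : ∀ S : Finset V, Maximal G.IsIndepSet (S : Set V) ↔ ∑ v ∈ S, w v = t) (v : V) :
    0 < w v := by
  classical
  have := Fintype.ofFinite V
  have h1 : G.IsIndepSet ({v} : Set V) := by simp [SimpleGraph.IsIndepSet]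
  obtain ⟨S, hvS, hS⟩ := Finite.exists_le_maximal h1
  have hv : v ∈ S := hvS rfl
  rw [Nat.pos_iff_ne_zero]
  intro h0
  have h2 : Maximal G.IsIndepSet ((S.toFinset : Finset V) : Set V) := by simpa using hS
  have h3 := (h _).1 h2
  have h4 : ∑ u ∈ S.toFinset.erase v, w u = t := by
    rw [← h3, ← Finset.add_sum_erase _ _ (show v ∈ S.toFinset by simpa using hv), h0, zero_add]
  have h5 := (h _).2 h4
  have h6 : ((S.toFinset : Finset V) : Set V) ⊆ ((S.toFinset.erase v : Finset V) : Set V) :=
    h5.2 h2.1 (by intro x hx; simp at hx ⊢; exact hx.1)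
  have h7 := h6 (show v ∈ ((S.toFinset : Finset V) : Set V) by simpa using hv)
  simp at h7

/-- A graph is not equistable if and only if there is a small certificate. -/
theorem not_equistable_iff_cert (M : List (List Bool)) :
    ¬ Equistable (matGraph M) ↔ ∃ p q : Finset (Fin M.length) → ℕ,
      (∀ S, p S ≤ bnd (M.length + 2) ∧ q S ≤ bnd (M.length + 2)) ∧
      ((famM M).filter (fun S => p S ≠ 0 ∨ q S ≠ 0)).card ≤ M.length + 2 ∧
      (Cert1 (famM M) p q ∨ Cert2 (famM M) p q) := by
  constructor
  · intro h
    rcases family_or (famM M) with ⟨w, t, ht, hw, hF⟩ | h'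
    · exact absurd ⟨w, t, ht, fun S => mem_famM.symm.trans (hF S)⟩ h
    · simpa using h'
  · rintro ⟨p, q, -, -, h⟩ ⟨w, t, ht, hw⟩
    exact not_of_cert (famM M) p q h w t ht (weight_pos hw) fun S => mem_famM.trans (hw S)

theorem sum_group {α β : Type} [DecidableEq α] (F : Finset α) (g : α → ℕ) (L : List β) (f : β → α)
    (h : β → ℕ) (hL : ∀ z ∈ L, f z ∈ F) :
    ∑ S ∈ F, g S * (L.map (fun z => if f z = S then h z else 0)).sum =
      (L.map (fun z => g (f z) * h z)).sum := by
  induction L with
  | nil => simp
  | cons z L ih =>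
    simp only [List.map_cons, List.sum_cons, mul_add, Finset.sum_add_distrib]
    rw [ih fun z hz => hL z (List.mem_cons_of_mem _ hz)]
    congr 1
    simp only [mul_ite, mul_zero]
    rw [Finset.sum_ite_eq F (f z) (fun S => g S * h z), if_pos (hL z List.mem_cons_self)]

/-- The set of vertices with the numbers in a list. -/
def toF (M : List (List Bool)) (K : List ℕ) : Finset (Fin M.length) :=
  univ.filter fun x => (x : ℕ) ∈ K

theorem coe_toF (M : List (List Bool)) (K : List ℕ) :
    ((toF M K : Finset (Fin M.length)) : Set (Fin M.length)) =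
      {x : Fin M.length | (x : ℕ) ∈ K} := by
  simp [toF]

theorem toF_listOf (M : List (List Bool)) (S : Finset (Fin M.length)) :
    toF M (listOf M (S : Set (Fin M.length))) = S := by
  ext x
  simp only [toF, Finset.mem_filter, Finset.mem_univ, true_and, mem_listOf]
  constructor
  · rintro ⟨_, h⟩
    simpa using h
  · intro h
    exact ⟨x.2, by simpa using h⟩

theorem cov_group {M : List (List Bool)} (L : List (List ℕ × ℕ × ℕ)) (h : (List ℕ × ℕ × ℕ) → ℕ)
    (hL : ∀ z ∈ L, toF M z.1 ∈ famM M) (v : Fin M.length) :
    cov (famM M) (fun S => (L.map (fun z => if toF M z.1 = S then h z else 0)).sum) v =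
      (L.map fun z => if (v : ℕ) ∈ z.1 then h z else 0).sum := by
  unfold cov
  have h1 := sum_group (famM M) (fun S => if v ∈ S then 1 else 0) L (fun z => toF M z.1) h hL
  simp only [ite_mul, one_mul, zero_mul] at h1
  rw [h1]
  congr 2
  funext z
  simp [toF]

theorem sz_item_le {M : List (List Bool)} (S : Finset (Fin M.length)) (a b : ℕ)
    (ha : a ≤ bnd (M.length + 2)) (hb : b ≤ bnd (M.length + 2)) :
    sz (listOf M (S : Set (Fin M.length)), a, b) ≤ 30 * (M.length + 2) ^ 2 := by
  have h1 := sz_listOf_le M (S : Set (Fin M.length))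
  have hbd : bnd (M.length + 2) < 2 ^ (2 * (M.length + 2) ^ 2) := by
    set d := M.length + 2 with hd
    have e1 : d.factorial ≤ d ^ d := Nat.factorial_le_pow d
    have e2 : bnd d ≤ d ^ (2 * d) :=
      calc bnd d = d.factorial * d ^ d := rfl
        _ ≤ d ^ d * d ^ d := Nat.mul_le_mul_right _ e1
        _ = d ^ (2 * d) := by rw [← pow_add, two_mul]
    have e3 : d ^ (2 * d) < (2 ^ d) ^ (2 * d) :=
      Nat.pow_lt_pow_left Nat.lt_two_pow_self (by omega)
    calc bnd d ≤ d ^ (2 * d) := e2
      _ < (2 ^ d) ^ (2 * d) := e3
      _ = 2 ^ (2 * d ^ 2) := by rw [← pow_mul]; congr 1; ring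
  have h2 : ∀ c, c ≤ bnd (M.length + 2) → sz c ≤ 4 * (2 * (M.length + 2) ^ 2) + 1 := by
    intro c hc
    have := sz_nat_le c
    have h3 := Nat.size_le.2 (hc.trans_lt hbd)
    omega
  have ha' := h2 a ha
  have hb' := h2 b hb
  simp only [sz_pair]
  nlinarith

theorem not_equistable_iff (M : List (List Bool)) :
    ¬ Equistable (matGraph M) ↔
      ∃ w : List (List ℕ × ℕ × ℕ), sz w ≤ (Polynomial.C 100 * (Polynomial.X + Polynomial.C 2) ^ 3 :
        Polynomial ℕ).eval (sz M) ∧ chkEq (M, w) = true := by
  classical
  constructor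
  · intro hne
    obtain ⟨p, q, hpq, hcard, h⟩ := (not_equistable_iff_cert M).1 hne
    set F' := (famM M).filter (fun S => p S ≠ 0 ∨ q S ≠ 0) with hF'
    set L : List (List ℕ × ℕ × ℕ) := F'.toList.map
      (fun S : Finset (Fin M.length) => (listOf M (S : Set (Fin M.length)), p S, q S)) with hL
    have hmem : ∀ z ∈ L, ∃ S ∈ F', z = (listOf M (S : Set (Fin M.length)), p S, q S) := by
      intro z hz
      rw [hL, List.mem_map] at hz
      obtain ⟨S, hS, rfl⟩ := hz
      exact ⟨S, by simpa using hS, rfl⟩
    have hcP : ∀ v : Fin M.length, cP L v = cov (famM M) p v := by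
      intro v
      unfold cP cov
      rw [hL, List.map_map, Finset.sum_map_toList]
      rw [hF', Finset.sum_filter]
      refine Finset.sum_congr rfl fun S _ => ?_
      simp only [Function.comp, mem_listOf]
      by_cases hv : v ∈ S
      · by_cases hp : p S = 0
        · simp [hp]
        · simp [hp, hv]
      · simp [hv]
    have hcQ : ∀ v : Fin M.length, cQ L v = cov (famM M) q v := by
      intro v
      unfold cQ cov
      rw [hL, List.map_map, Finset.sum_map_toList]
      rw [hF', Finset.sum_filter]
      refine Finset.sum_congr rfl fun S _ => ?_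
      simp only [Function.comp, mem_listOf]
      by_cases hv : v ∈ S
      · by_cases hp : q S = 0
        · simp [hp]
        · simp [hp, hv]
      · simp [hv]
    have htP : tP L = ∑ S ∈ famM M, p S := by
      unfold tP
      rw [hL, List.map_map, Finset.sum_map_toList, hF', Finset.sum_filter]
      refine Finset.sum_congr rfl fun S _ => ?_
      by_cases hp : p S = 0
      · simp [hp]
      · simp [hp]
    have htQ : tQ L = ∑ S ∈ famM M, q S := by
      unfold tQ
      rw [hL, List.map_map, Finset.sum_map_toList, hF', Finset.sum_filter]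
      refine Finset.sum_congr rfl fun S _ => ?_
      by_cases hp : q S = 0
      · simp [hp]
      · simp [hp]
    refine ⟨L, ?_, ?_⟩
    · have h1 := sz_le_length_mul L (30 * (M.length + 2) ^ 2) (by
        intro z hz
        obtain ⟨S, _, rfl⟩ := hmem z hz
        exact sz_item_le S _ _ (hpq S).1 (hpq S).2)
      have h2 : L.length ≤ M.length + 2 := by
        rw [hL, List.length_map, Finset.length_toList]
        exact hcard
      have h3 := length_lt_sz M
      have h4 : M.length + 2 ≤ sz M + 2 := by omega
      have h5 : L.length * (30 * (M.length + 2) ^ 2 + 1) ≤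
          (sz M + 2) * (30 * (sz M + 2) ^ 2 + 1) :=
        Nat.mul_le_mul (h2.trans h4) (Nat.add_le_add_right
          (Nat.mul_le_mul_left _ (Nat.pow_le_pow_left h4 2)) 1)
      simp only [Polynomial.eval_mul, Polynomial.eval_C, Polynomial.eval_pow, Polynomial.eval_add,
        Polynomial.eval_X]
      nlinarith
    · simp only [chkEq, Bool.and_eq_true, List.all_eq_true, decide_eq_true_eq, Bool.or_eq_true,
        List.any_eq_true, List.mem_range, Bool.not_eq_true']
      refine ⟨?_, ?_⟩
      · intro z hz
        obtain ⟨S, hS, rfl⟩ := hmem z hz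
        rw [chkMax_iff]
        refine ⟨fun i hi => ((mem_listOf i).1 hi).1, ?_⟩
        rw [← coe_toF, toF_listOf]
        exact mem_famM.1 (Finset.mem_filter.1 hS).1
      · rcases h with ⟨T, D, hT, hD, h1, h2⟩ | ⟨h1, h2, h3⟩
        · right
          have hTeq : toF M (dif M L) = T := by
            ext x
            simp only [toF, dif, Finset.mem_filter, Finset.mem_univ, true_and, List.mem_filter,
              List.mem_range, decide_eq_true_eq, x.2]
            rw [hcP, hcQ, h1 x]
            by_cases hx : x ∈ T
            · simp [hx]; omega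
            · simp [hx]
          refine ⟨⟨by rw [htP, htQ]; omega, ?_⟩, ?_⟩
          · intro x hx
            have e1 := hcP ⟨x, hx⟩
            have e2 := hcQ ⟨x, hx⟩
            have e3 := h1 ⟨x, hx⟩
            simp only at e1 e2
            rw [e1, e2, htP, htQ, e3, h2]
            by_cases hxT : (⟨x, hx⟩ : Fin M.length) ∈ T
            · right
              simp [hxT]
            · left
              simp [hxT]
          · rw [← Bool.not_eq_true, chkMax_iff]
            rintro ⟨_, h3⟩
            rw [← coe_toF, hTeq] at h3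
            exact hT (mem_famM.2 h3)
        · left
          refine ⟨⟨?_, by rw [htP, htQ]; exact h2⟩, ?_⟩
          · intro x hx
            have e1 := hcP ⟨x, hx⟩
            have e2 := hcQ ⟨x, hx⟩
            simp only at e1 e2
            rw [e1, e2]
            exact h1 ⟨x, hx⟩
          · rcases h3 with ⟨v, hv⟩ | h3
            · left
              refine ⟨v, v.2, ?_⟩
              rw [hcP, hcQ]
              exact hv
            · right
              rw [htP, htQ]
              exact h3
  · rintro ⟨L, -, hc⟩
    simp only [chkEq, Bool.and_eq_true, List.all_eq_true, decide_eq_true_eq, Bool.or_eq_true,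
      List.any_eq_true, List.mem_range, Bool.not_eq_true'] at hc
    obtain ⟨hL, hc⟩ := hc
    have hLF : ∀ z ∈ L, toF M z.1 ∈ famM M := by
      intro z hz
      rw [mem_famM, coe_toF]
      exact ((chkMax_iff _ _).1 (hL z hz)).2
    set p : Finset (Fin M.length) → ℕ :=
      fun S => (L.map (fun z => if toF M z.1 = S then z.2.1 else 0)).sum with hp
    set q : Finset (Fin M.length) → ℕ :=
      fun S => (L.map (fun z => if toF M z.1 = S then z.2.2 else 0)).sum with hq
    have hcP : ∀ v : Fin M.length, cov (famM M) p v = cP L v := fun v =>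
      cov_group L (fun z => z.2.1) hLF v
    have hcQ : ∀ v : Fin M.length, cov (famM M) q v = cQ L v := fun v =>
      cov_group L (fun z => z.2.2) hLF v
    have htP : ∑ S ∈ famM M, p S = tP L := by
      have h1 := sum_group (famM M) (fun _ => 1) L (fun z => toF M z.1) (fun z => z.2.1) hLF
      simpa [hp, tP] using h1
    have htQ : ∑ S ∈ famM M, q S = tQ L := by
      have h1 := sum_group (famM M) (fun _ => 1) L (fun z => toF M z.1) (fun z => z.2.2) hLF
      simpa [hq, tQ] using h1
    have hcert : Cert1 (famM M) p q ∨ Cert2 (famM M) p q := by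
      rcases hc with ⟨⟨h1, h2⟩, h3⟩ | ⟨⟨h1, h2⟩, h3⟩
      · right
        refine ⟨fun v => ?_, by rw [htP, htQ]; exact h2, ?_⟩
        · rw [hcP, hcQ]
          exact h1 v v.2
        · rcases h3 with ⟨v, hv, h3⟩ | h3
          · left
            refine ⟨⟨v, hv⟩, ?_⟩
            rw [hcP, hcQ]
            exact h3
          · right
            rw [htP, htQ]
            exact h3
      · left
        refine ⟨toF M (dif M L), tP L - tQ L, ?_, by omega, ?_, by rw [htP, htQ]; omega⟩
        · intro h4
          rw [mem_famM, coe_toF] at h4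
          have h5 := (chkMax_iff M (dif M L)).2 ⟨fun i hi => by
            simp only [dif, List.mem_filter, List.mem_range] at hi
            exact hi.1, h4⟩
          rw [h5] at h3
          exact absurd h3 (by simp)
        · intro v
          rw [hcP, hcQ]
          have h4 : v ∈ toF M (dif M L) ↔ cP L v ≠ cQ L v := by
            simp [toF, dif]
          by_cases h5 : cP L v = cQ L v
          · rw [if_neg (by rw [h4]; exact fun h => h h5), h5, add_zero]
          · rw [if_pos (h4.2 h5)]
            rcases h2 v v.2 with h6 | h6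
            · exact absurd h6 h5
            · exact h6
    intro hE
    obtain ⟨w, t, ht, hw⟩ := hE
    exact not_of_cert (famM M) p q hcert w t ht (weight_pos hw) fun S => mem_famM.trans (hw S)

theorem inCoNP_equistable :
    InCoNPP (fun M : List (List Bool) => Equistable (matGraph M)) :=
  inCoNPP_of chkEq_poly _ not_equistable_iff

end Pool.Agent.Y602.EQ
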