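import Pool.Agent.Y602.EQ.Small

/-!
# Families of sets cut out by one linear equation

A family `F` of subsets of a finite set `V` is the family of all sets of weight exactly `t`, for
some positive integer weights and some positive integer `t`, if and only if there is no
certificate: few members of `F` with small multiplicities such that either their combination
contradicts positivity, or it is a multiple of a set not in `F`.
-/

set_option autoImplicit false

namespace Pool.Agent.Y602.EQ

open Finset Filter Topology

section

variable {V : Type} [Fintype V] [DecidableEq V]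

/-- The number of times that a combination of members of `F` covers `v`. -/
def cov (F : Finset (Finset V)) (p : Finset V → ℕ) (v : V) : ℕ :=
  ∑ S ∈ F, if v ∈ S then p S else 0

/-- The two multiplicity functions contradict positivity. -/
def Cert2 (F : Finset (Finset V)) (p q : Finset V → ℕ) : Prop :=
  (∀ v, cov F q v ≤ cov F p v) ∧ ∑ S ∈ F, p S ≤ ∑ S ∈ F, q S ∧
    ((∃ v, cov F q v < cov F p v) ∨ ∑ S ∈ F, p S < ∑ S ∈ F, q S)

/-- The difference of the two combinations is a multiple of a set that is not in `F`. -/
def Cert1 (F : Finset (Finset V)) (p q : Finset V → ℕ) : Prop :=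
  ∃ (T : Finset V) (D : ℕ), T ∉ F ∧ 0 < D ∧
    (∀ v, cov F p v = cov F q v + if v ∈ T then D else 0) ∧ ∑ S ∈ F, p S = ∑ S ∈ F, q S + D

/-- Columns for the members of `F`, with sign. -/
def sgn (b : Bool) : ℤ := if b then 1 else -1

theorem abs_sgn_mul (b : Bool) (x : ℤ) (hx : |x| ≤ 1) : |sgn b * x| ≤ 1 := by
  cases b <;> simpa [sgn] using hx

/-- The multiplicities of a function on the signed members. -/
def mult {F : Finset (Finset V)} (N : F × Bool → ℕ) (b : Bool) (S : Finset V) : ℕ :=
  if h : S ∈ F then N (⟨S, h⟩, b) else 0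

theorem sum_mult {F : Finset (Finset V)} (N : F × Bool → ℕ) (g : Finset V → ℤ) :
    ∑ k : F × Bool, (N k : ℤ) * (sgn k.2 * g k.1) =
      ∑ S ∈ F, (mult N true S : ℤ) * g S - ∑ S ∈ F, (mult N false S : ℤ) * g S := by
  rw [Fintype.sum_prod_type, ← Finset.sum_sub_distrib, ← Finset.sum_coe_sort F]
  refine Finset.sum_congr rfl fun S _ => ?_
  rw [Fintype.sum_bool]
  simp only [mult, S.2, dif_pos, sgn]
  simp only [Subtype.coe_eta, if_true, Bool.false_eq_true, if_false]
  ring

theorem cov_eq {F : Finset (Finset V)} (p : Finset V → ℕ) (v : V) :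
    (cov F p v : ℤ) = ∑ S ∈ F, (p S : ℤ) * (if v ∈ S then 1 else 0) := by
  simp [cov]

theorem supp_card {F : Finset (Finset V)} {κ : Type} [Fintype κ] (N : κ → ℕ) (j : F × Bool → κ)
    (hj : Function.Injective j) (d : ℕ) (h : (univ.filter (fun k => N k ≠ 0)).card ≤ d) :
    (F.filter (fun S => mult (fun k => N (j k)) true S ≠ 0 ∨
      mult (fun k => N (j k)) false S ≠ 0)).card ≤ d := by
  classical
  refine le_trans ?_ h
  have h1 : ((univ : Finset (F × Bool)).filter (fun k => N (j k) ≠ 0)).card ≤
      (univ.filter (fun k => N k ≠ 0)).card := by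
    rw [← Finset.card_image_of_injective _ hj]
    refine Finset.card_le_card ?_
    intro k hk
    simp only [Finset.mem_image, Finset.mem_filter, Finset.mem_univ, true_and] at hk ⊢
    obtain ⟨a, ha, rfl⟩ := hk
    exact ha
  refine le_trans ?_ h1
  refine le_trans (Finset.card_le_card (t := ((univ : Finset (F × Bool)).filter
    (fun k => N (j k) ≠ 0)).image (fun k => (k.1 : Finset V))) ?_) Finset.card_image_le
  intro S hS
  simp only [Finset.mem_filter, mult, Finset.mem_image, Finset.mem_univ, true_and] at hS ⊢
  obtain ⟨hSF, h | h⟩ := hS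
  · rw [dif_pos hSF] at h
    exact ⟨_, h, rfl⟩
  · rw [dif_pos hSF] at h
    exact ⟨_, h, rfl⟩

/-- Either there are positive rational weights for which all members of `F` have the same
weight, or there is a small certificate. -/
theorem positive_or (F : Finset (Finset V)) :
    (∃ (w : V → ℚ) (t : ℚ), 0 < t ∧ (∀ v, 0 < w v) ∧ ∀ S ∈ F, ∑ v ∈ S, w v = t) ∨
    ∃ p q : Finset V → ℕ, (∀ S, p S ≤ bnd (Fintype.card V + 2) ∧ q S ≤ bnd (Fintype.card V + 2)) ∧
      (F.filter (fun S => p S ≠ 0 ∨ q S ≠ 0)).card ≤ Fintype.card V + 2 ∧ Cert2 F p q := by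
  let v : (F × Bool) ⊕ Option V → (V ⊕ Bool) → ℤ := fun k i =>
    match k, i with
    | Sum.inl k, Sum.inl u => sgn k.2 * (if u ∈ (k.1 : Finset V) then 1 else 0)
    | Sum.inl k, Sum.inr false => sgn k.2 * (-1)
    | Sum.inl _, Sum.inr true => 0
    | Sum.inr (some u'), Sum.inl u => if u = u' then -1 else 0
    | Sum.inr (some _), Sum.inr false => 0
    | Sum.inr (some _), Sum.inr true => 1
    | Sum.inr none, Sum.inl _ => 0
    | Sum.inr none, Sum.inr false => -1
    | Sum.inr none, Sum.inr true => 1
  let b : (V ⊕ Bool) → ℤ := fun i =>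
    match i with
    | Sum.inl _ => 0
    | Sum.inr false => 0
    | Sum.inr true => 1
  have hv : ∀ k i, |v k i| ≤ 1 := by
    rintro (k | (_ | u')) (u | (_ | _))
    · exact abs_sgn_mul _ _ (by split_ifs <;> simp)
    · exact abs_sgn_mul _ _ (by simp)
    · simp [v]
    · simp [v]
    · simp [v]
    · simp [v]
    · simp only [v]; split_ifs <;> simp
    · simp [v]
    · simp [v]
  have hb : ∀ i, |b i| ≤ 1 := by
    rintro (u | (_ | _)) <;> simp [b]
  have hcard : Fintype.card (V ⊕ Bool) = Fintype.card V + 2 := by simp
  rcases farkas_small v b hv hb with ⟨x, hx, hbx⟩ | ⟨N, D, hD, hN, hc, hs⟩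
  · left
    simp only [Fintype.sum_sum_type, Fintype.sum_bool, b, Int.cast_zero, zero_mul, zero_add,
      Finset.sum_const_zero, Int.cast_one, one_mul, add_zero] at hbx
    refine ⟨fun u => x (Sum.inl u), x (Sum.inr false), ?_, ?_, ?_⟩
    · have := hx (Sum.inr none)
      simp only [Fintype.sum_sum_type, Fintype.sum_bool, v, Int.cast_zero, zero_mul, zero_add,
        Finset.sum_const_zero, Int.cast_one, one_mul, add_zero, Int.cast_neg, neg_mul] at this
      linarith
    · intro u
      have := hx (Sum.inr (some u))
      simp only [Fintype.sum_sum_type, Fintype.sum_bool, v, Int.cast_zero, zero_mul,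
        Int.cast_one, one_mul, add_zero, Int.cast_ite, Int.cast_neg, ite_mul, neg_mul,
        Finset.sum_ite_eq', Finset.mem_univ, if_true] at this
      linarith
    · intro S hS
      have h1 := hx (Sum.inl (⟨S, hS⟩, true))
      have h2 := hx (Sum.inl (⟨S, hS⟩, false))
      simp only [Fintype.sum_sum_type, Fintype.sum_bool, v, sgn, Int.cast_zero, zero_mul,
        Int.cast_one, one_mul, Int.cast_ite, Int.cast_neg, ite_mul, neg_mul,
        Finset.sum_ite_mem, Finset.univ_inter, if_true, Bool.false_eq_true, if_false,
        Finset.sum_neg_distrib, neg_neg, mul_neg, mul_one, zero_add, mul_ite, mul_zero] at h1 h2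
      have h3 : ∑ u, (if u ∈ S then -x (Sum.inl u) else 0) = - ∑ u ∈ S, x (Sum.inl u) := by
        rw [Finset.sum_ite_mem, Finset.univ_inter, Finset.sum_neg_distrib]
      try simp only [neg_zero] at h2
      try rw [h3] at h2
      linarith
  · right
    rw [hcard] at hN hc
    refine ⟨mult (fun k => N (Sum.inl k)) true, mult (fun k => N (Sum.inl k)) false, ?_,
      supp_card N Sum.inl Sum.inl_injective _ hc, ?_⟩
    · intro S
      unfold mult
      constructor <;> split_ifs <;> first | exact hN _ | exact Nat.zero_le _
    · have hu : ∀ u : V, (cov F (mult (fun k => N (Sum.inl k)) true) u : ℤ) =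
          cov F (mult (fun k => N (Sum.inl k)) false) u + N (Sum.inr (some u)) := by
        intro u
        have h1 := hs (Sum.inl u)
        rw [Fintype.sum_sum_type] at h1
        have h2 := sum_mult (fun k => N (Sum.inl k)) (fun S : Finset V => if u ∈ S then 1 else 0)
        rw [cov_eq, cov_eq]
        simp only [v, b] at h1
        rw [h2, Fintype.sum_option] at h1
        simp only [mul_ite, mul_neg, mul_one, mul_zero, Finset.sum_ite_eq, Finset.mem_univ,
          if_true, zero_add] at h1 ⊢
        linarith
      have ht : ((∑ S ∈ F, mult (fun k => N (Sum.inl k)) false S : ℕ) : ℤ) =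
          (∑ S ∈ F, mult (fun k => N (Sum.inl k)) true S : ℕ) + N (Sum.inr none) := by
        have h1 := hs (Sum.inr false)
        rw [Fintype.sum_sum_type] at h1
        have h2 := sum_mult (fun k => N (Sum.inl k)) (fun _ : Finset V => -1)
        simp only [v, b] at h1
        rw [h2, Fintype.sum_option] at h1
        simp only [mul_neg, mul_one, mul_zero, Finset.sum_neg_distrib, Finset.sum_const_zero,
          add_zero] at h1
        push_cast
        linarith
      have he : (∑ u : V, (N (Sum.inr (some u)) : ℤ)) + N (Sum.inr none) = D := by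
        have h1 := hs (Sum.inr true)
        rw [Fintype.sum_sum_type] at h1
        simp only [v, b] at h1
        rw [Fintype.sum_option] at h1
        simp only [mul_one, mul_zero, Finset.sum_const_zero, zero_add] at h1
        linarith
      refine ⟨fun u => ?_, ?_, ?_⟩
      · have := hu u
        omega
      · omega
      · by_cases h0 : N (Sum.inr none) = 0
        · left
          have h1 : (∑ u : V, (N (Sum.inr (some u)) : ℤ)) ≠ 0 := by
            intro h
            rw [h, h0] at he
            omega
          obtain ⟨u, -, hu'⟩ := Finset.exists_ne_zero_of_sum_ne_zero h1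
          refine ⟨u, ?_⟩
          have := hu u
          omega
        · right
          omega

/-- Either some rational weights give all members of `F` the same weight, and `T` another one, or
there is a small certificate. -/
theorem separate_or (F : Finset (Finset V)) (T : Finset V) (hT : T ∉ F) :
    (∃ (w : V → ℚ) (t : ℚ), (∀ S ∈ F, ∑ v ∈ S, w v = t) ∧ ∑ v ∈ T, w v ≠ t) ∨
    ∃ p q : Finset V → ℕ, (∀ S, p S ≤ bnd (Fintype.card V + 1) ∧ q S ≤ bnd (Fintype.card V + 1)) ∧
      (F.filter (fun S => p S ≠ 0 ∨ q S ≠ 0)).card ≤ Fintype.card V + 1 ∧ Cert1 F p q := by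
  let v : (F × Bool) → Option V → ℤ := fun k i =>
    match i with
    | some u => sgn k.2 * (if u ∈ (k.1 : Finset V) then 1 else 0)
    | none => sgn k.2 * (-1)
  let b : Option V → ℤ := fun i =>
    match i with
    | some u => if u ∈ T then 1 else 0
    | none => -1
  have hv : ∀ k i, |v k i| ≤ 1 := by
    rintro k (_ | u)
    · exact abs_sgn_mul _ _ (by simp)
    · exact abs_sgn_mul _ _ (by split_ifs <;> simp)
  have hb : ∀ i, |b i| ≤ 1 := by
    rintro (_ | u)
    · simp [b]
    · simp only [b]; split_ifs <;> simp
  have hcard : Fintype.card (Option V) = Fintype.card V + 1 := by simp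
  rcases farkas_small v b hv hb with ⟨x, hx, hbx⟩ | ⟨N, D, hD, hN, hc, hs⟩
  · left
    refine ⟨fun u => x (some u), x none, ?_, ?_⟩
    · intro S hS
      have h1 := hx (⟨S, hS⟩, true)
      have h2 := hx (⟨S, hS⟩, false)
      rw [Fintype.sum_option] at h1 h2
      have h3 : ∑ u, (if u ∈ S then x (some u) else 0) = ∑ u ∈ S, x (some u) := by
        rw [Finset.sum_ite_mem, Finset.univ_inter]
      have h4 : ∑ u, (if u ∈ S then -x (some u) else 0) = -∑ u ∈ S, x (some u) := by
        rw [Finset.sum_ite_mem, Finset.univ_inter, Finset.sum_neg_distrib]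
      simp only [v, sgn, if_true, Bool.false_eq_true, if_false, one_mul, neg_mul, neg_neg,
        Int.cast_neg, Int.cast_one, Int.cast_ite, Int.cast_zero, ite_mul, zero_mul, mul_neg,
        mul_one, mul_ite, mul_zero, h3, h4, apply_ite Neg.neg, neg_zero] at h1 h2
      linarith
    · intro h
      rw [Fintype.sum_option] at hbx
      simp only [b, Int.cast_neg, Int.cast_one, Int.cast_ite, Int.cast_zero, ite_mul, zero_mul,
        one_mul, neg_mul, Finset.sum_ite_mem, Finset.univ_inter] at hbx
      linarith
  · right
    rw [hcard] at hN hc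
    refine ⟨mult N true, mult N false, ?_, supp_card N id Function.injective_id _ hc, T, D, hT, hD,
      ?_, ?_⟩
    · intro S
      unfold mult
      constructor <;> split_ifs <;> first | exact hN _ | exact Nat.zero_le _
    · intro u
      have h1 := hs (some u)
      have h2 := sum_mult N (fun S : Finset V => if u ∈ S then 1 else 0)
      simp only [v, b] at h1
      rw [h2, ← cov_eq, ← cov_eq] at h1
      split_ifs at h1 ⊢ with h
      · simp only [h, if_true] at *
        omega
      · omega
    · have h1 := hs none
      have h2 := sum_mult N (fun _ : Finset V => -1)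
      simp only [v, b] at h1
      rw [h2] at h1
      simp only [mul_neg, mul_one, Finset.sum_neg_distrib] at h1
      have h3 : ((∑ S ∈ F, mult N true S : ℕ) : ℤ) = (∑ S ∈ F, mult N false S : ℕ) + D := by
        push_cast
        linarith
      omega

end

end Pool.Agent.Y602.EQ
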